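import Pool.Agent.QDA.StmtsM
import Pool.Agent.Helper89_QDA.Stm
import Pool.Agent.Helper54_LQX.All

/-!
# QDA, row GUC: the free Green function is bounded and Hoelder continuous
-/

set_option autoImplicit false

open MeasureTheory ProbabilityTheory Function Filter

open scoped BigOperators NNReal ENNReal Matrix InnerProductSpace Topology

noncomputable section

namespace Pool.Agent.QDA.H24

open Pool.Agent.Anderson hiding box mem_box card_box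
open Pool.Agent.Loc Pool.Agent.Mob Pool.Agent.Helper54.Bal
  Pool.Agent.Helper96.EXP Pool.Agent.BED
open Pool.Agent.LE.MN Pool.Agent.LE.CL Pool.Agent.LE.IR Pool.Agent.LE.QD
open Pool.Agent.LE.QF Pool.Agent.LE.QF.H68

/-- the derivative -/
theorem bh_bound (khb : KhbStmt) {d : ℕ} (hd : 3 ≤ d) : ∃ C : ℝ, 1 ≤ C ∧
    ∀ (M : ℕ) [NeZero M] (z : ℂ) (u : ℝ), 0 < u → z.im = u ^ 4 → z.im ≤ 1 / 2 →
      C / z.im ^ 2 ≤ M → ‖bh z (0 : Tor d M)‖ ≤ C / u ^ 3 := by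
  obtain ⟨CK, hCK, h⟩ := khb d hd
  refine ⟨4 * CK, by linarith, ?_⟩
  intro M _ z u hu hz hz2 hM
  have hw : 0 < z.im := by rw [hz]; positivity
  have h5 : CK / z.im ^ 2 ≤ M := by
    refine le_trans ?_ hM
    have : CK ≤ 4 * CK := by linarith
    gcongr
  have h6 := (h M z 0 ⟨0, by omega⟩ hw hz2 h5).2
  have h7 : |Real.cos (Real.pi * ((((0 : Tor d M) ⟨0, by omega⟩).valMinAbs : ℤ) : ℝ) / M)| = 1 := by
    simp
  rw [h7] at h6
  have h8 : Real.sqrt (z.im / (z.im + 1)) ≤ u ^ 2 := by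
    rw [Real.sqrt_le_left (by positivity)]
    have h9 : z.im / (z.im + 1) ≤ z.im := div_le_self hw.le (by linarith)
    calc z.im / (z.im + 1) ≤ z.im := h9
      _ = (u ^ 2) ^ 2 := by rw [hz]; ring
  have h10 : 1 + Real.log (1 / z.im) ≤ 4 / u := by
    rw [hz]
    exact log_le_u hu
  have hlog : 0 ≤ 1 + Real.log (1 / z.im) := by
    have : 0 ≤ Real.log (1 / z.im) := by
      apply Real.log_nonneg
      rw [le_div_iff₀ hw]
      linarith
    linarith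
  calc ‖bh z (0 : Tor d M)‖ ≤ CK * (1 + Real.log (1 / z.im)) / z.im *
        Real.sqrt (z.im / (z.im + 1)) := h6
    _ ≤ CK * (4 / u) / z.im * u ^ 2 := by
        gcongr
    _ = 4 * CK / u ^ 3 := by
        rw [hz]
        field_simp

/-- vertical -/
theorem vert {d : ℕ} {C : ℝ}
    (h : ∀ (M : ℕ) [NeZero M] (z : ℂ) (u : ℝ), 0 < u → z.im = u ^ 4 → z.im ≤ 1 / 2 →
      C / z.im ^ 2 ≤ M → ‖bh z (0 : Tor d M)‖ ≤ C / u ^ 3) (hC : 1 ≤ C)
    (M : ℕ) [NeZero M] (E a b : ℝ) (ha : 0 < a) (hab : a ≤ b) (hb : b ^ 4 ≤ 1 / 2)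
    (hM : C / (a ^ 4) ^ 2 ≤ M) :
    ‖Fz d M ((E : ℂ) + ((b ^ 4 : ℝ) : ℂ) * Complex.I) -
      Fz d M ((E : ℂ) + ((a ^ 4 : ℝ) : ℂ) * Complex.I)‖ ≤ 4 * C * (b - a) := by
  have him : ∀ s : ℝ, ((E : ℂ) + ((s ^ 4 : ℝ) : ℂ) * Complex.I).im = s ^ 4 := by
    intro s
    simp [← Complex.ofReal_pow]
  have hpath : ∀ s : ℝ, HasDerivAt (fun s : ℝ => (E : ℂ) + ((s ^ 4 : ℝ) : ℂ) * Complex.I)
      (((4 * s ^ 3 : ℝ) : ℂ) * Complex.I) s := by
    intro s
    have h1 : HasDerivAt (fun s : ℝ => s ^ 4) (4 * s ^ 3) s := by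
      simpa using hasDerivAt_pow 4 s
    exact (h1.ofReal_comp.mul_const Complex.I).const_add (E : ℂ)
  have hf : ∀ s ∈ Set.Icc a b, HasDerivWithinAt
      (fun s : ℝ => Fz d M ((E : ℂ) + ((s ^ 4 : ℝ) : ℂ) * Complex.I))
      ((((4 * s ^ 3 : ℝ) : ℂ) * Complex.I) •
        bh ((E : ℂ) + ((s ^ 4 : ℝ) : ℂ) * Complex.I) (0 : Tor d M)) (Set.Icc a b) s := by
    intro s hs
    have hs0 : 0 < s := ha.trans_le hs.1
    have h1 : 0 < ((E : ℂ) + ((s ^ 4 : ℝ) : ℂ) * Complex.I).im := by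
      rw [him]
      positivity
    exact (HasDerivAt.scomp s (Fz_deriv h1) (hpath s)).hasDerivWithinAt
  have hbd : ∀ s ∈ Set.Icc a b, ‖(((4 * s ^ 3 : ℝ) : ℂ) * Complex.I) •
      bh ((E : ℂ) + ((s ^ 4 : ℝ) : ℂ) * Complex.I) (0 : Tor d M)‖ ≤ 4 * C := by
    intro s hs
    have hs0 : 0 < s := ha.trans_le hs.1
    have h1 : s ^ 4 ≤ 1 / 2 := (pow_le_pow_left₀ hs0.le hs.2 4).trans hb
    have h2 := h M ((E : ℂ) + ((s ^ 4 : ℝ) : ℂ) * Complex.I) s hs0 (him s) (by rw [him]; exact h1)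
      (by
        rw [him]
        refine le_trans ?_ hM
        have : a ^ 4 ≤ s ^ 4 := pow_le_pow_left₀ ha.le hs.1 4
        gcongr)
    rw [norm_smul, norm_mul, Complex.norm_I, mul_one, Complex.norm_real,
      Real.norm_of_nonneg (by positivity : (0 : ℝ) ≤ 4 * s ^ 3)]
    calc 4 * s ^ 3 * ‖bh ((E : ℂ) + ((s ^ 4 : ℝ) : ℂ) * Complex.I) (0 : Tor d M)‖
        ≤ 4 * s ^ 3 * (C / s ^ 3) := by gcongr
      _ = 4 * C := by field_simp
  have h3 := (convex_Icc a b).norm_image_sub_le_of_norm_hasDerivWithin_le hf hbd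
    (Set.left_mem_Icc.2 hab) (Set.right_mem_Icc.2 hab)
  rwa [Real.norm_of_nonneg (by linarith : 0 ≤ b - a)] at h3

/-- horizontal -/
theorem horiz {d : ℕ} {C : ℝ}
    (h : ∀ (M : ℕ) [NeZero M] (z : ℂ) (u : ℝ), 0 < u → z.im = u ^ 4 → z.im ≤ 1 / 2 →
      C / z.im ^ 2 ≤ M → ‖bh z (0 : Tor d M)‖ ≤ C / u ^ 3)
    (M : ℕ) [NeZero M] (E E' u : ℝ) (hu : 0 < u) (hb : u ^ 4 ≤ 1 / 2)
    (hM : C / (u ^ 4) ^ 2 ≤ M) :
    ‖Fz d M ((E : ℂ) + ((u ^ 4 : ℝ) : ℂ) * Complex.I) -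
      Fz d M ((E' : ℂ) + ((u ^ 4 : ℝ) : ℂ) * Complex.I)‖ ≤ C / u ^ 3 * |E - E'| := by
  have him : ∀ E : ℝ, ((E : ℂ) + ((u ^ 4 : ℝ) : ℂ) * Complex.I).im = u ^ 4 := by
    intro E
    simp [← Complex.ofReal_pow]
  have hcv : Convex ℝ {z : ℂ | z.im = u ^ 4} := by
    have h1 : {z : ℂ | z.im = u ^ 4} = {z : ℂ | u ^ 4 ≤ z.im} ∩ {z : ℂ | z.im ≤ u ^ 4} := by
      ext z
      simp only [Set.mem_setOf_eq, Set.mem_inter_iff]
      constructor
      · intro hz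
        exact ⟨hz.ge, hz.le⟩
      · intro hz
        exact le_antisymm hz.2 hz.1
    rw [h1]
    exact (convex_halfSpace_im_ge (u ^ 4)).inter (convex_halfSpace_im_le (u ^ 4))
  have h3 := hcv.norm_image_sub_le_of_norm_hasDerivWithin_le
    (f := Fz d M) (f' := fun z => bh z (0 : Tor d M)) (C := C / u ^ 3)
    (fun z hz => (Fz_deriv (by
      have hz' : z.im = u ^ 4 := hz
      rw [hz']
      positivity)).hasDerivWithinAt)
    (fun z hz => by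
      have hz' : z.im = u ^ 4 := hz
      exact h M z u hu hz' (by rw [hz']; exact hb) (by rw [hz']; exact hM))
    (him E') (him E)
  refine h3.trans ?_
  have h4 : (E : ℂ) + ((u ^ 4 : ℝ) : ℂ) * Complex.I - ((E' : ℂ) + ((u ^ 4 : ℝ) : ℂ) * Complex.I) =
      ((E - E' : ℝ) : ℂ) := by
    push_cast
    ring
  rw [h4, Complex.norm_real, Real.norm_eq_abs]

/-- the Hoelder bound on the torus -/
theorem Fz_holder {d : ℕ} {C : ℝ}
    (h : ∀ (M : ℕ) [NeZero M] (z : ℂ) (u : ℝ), 0 < u → z.im = u ^ 4 → z.im ≤ 1 / 2 →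
      C / z.im ^ 2 ≤ M → ‖bh z (0 : Tor d M)‖ ≤ C / u ^ 3) (hC : 1 ≤ C)
    (z z' : ℂ) (hz : 0 < z.im) (hz' : 0 < z'.im) (hz2 : z.im ≤ 1 / 2) (hz2' : z'.im ≤ 1 / 2)
    (hne : 0 < ‖z - z'‖) (h12 : ‖z - z'‖ ≤ 1 / 2)
    (M : ℕ) [NeZero M] (hM : C / z.im ^ 2 ≤ M) (hM' : C / z'.im ^ 2 ≤ M) :
    ‖Fz d M z - Fz d M z'‖ ≤ 9 * C * ‖z - z'‖ ^ (1 / 4 : ℝ) := by
  set r : ℝ := ‖z - z'‖ with hr
  -- fourth roots
  have root : ∀ x : ℝ, 0 < x → ∃ u : ℝ, 0 < u ∧ u ^ 4 = x := by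
    intro x hx
    refine ⟨x ^ (1 / 4 : ℝ), Real.rpow_pos_of_pos hx _, ?_⟩
    rw [← Real.rpow_natCast, ← Real.rpow_mul hx.le]
    norm_num
  set v : ℝ := r ^ (1 / 4 : ℝ) with hv
  have hv0 : 0 < v := Real.rpow_pos_of_pos hne _
  have hv4 : v ^ 4 = r := by
    rw [hv, ← Real.rpow_natCast, ← Real.rpow_mul hne.le]
    norm_num
  have hh0 : 0 < max (max z.im z'.im) r := lt_max_of_lt_right hne
  obtain ⟨b, hb0, hb4⟩ := root _ hh0
  obtain ⟨a, ha0, ha4⟩ := root _ hz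
  obtain ⟨a', ha0', ha4'⟩ := root _ hz'
  have hb2 : b ^ 4 ≤ 1 / 2 := by
    rw [hb4]
    exact max_le (max_le hz2 hz2') h12
  have hab : a ≤ b := by
    have : a ^ 4 ≤ b ^ 4 := by
      rw [ha4, hb4]
      exact (le_max_left _ _).trans (le_max_left _ _)
    exact (pow_le_pow_iff_left₀ ha0.le hb0.le (by norm_num)).1 this
  have hab' : a' ≤ b := by
    have : a' ^ 4 ≤ b ^ 4 := by
      rw [ha4', hb4]
      exact (le_max_right _ _).trans (le_max_left _ _)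
    exact (pow_le_pow_iff_left₀ ha0'.le hb0.le (by norm_num)).1 this
  have hvb : v ≤ b := by
    have : v ^ 4 ≤ b ^ 4 := by
      rw [hv4, hb4]
      exact le_max_right _ _
    exact (pow_le_pow_iff_left₀ hv0.le hb0.le (by norm_num)).1 this
  have him : |z.im - z'.im| ≤ r := by
    rw [hr, ← Complex.sub_im]
    exact Complex.abs_im_le_norm _
  have hre : |z.re - z'.re| ≤ r := by
    rw [hr, ← Complex.sub_re]
    exact Complex.abs_re_le_norm _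
  have hbr : b ^ 4 ≤ a ^ 4 + v ^ 4 := by
    rw [hb4, ha4, hv4]
    have := abs_le.1 him
    exact max_le (max_le (by linarith) (by linarith)) (by linarith)
  have hbr' : b ^ 4 ≤ a' ^ 4 + v ^ 4 := by
    rw [hb4, ha4', hv4]
    have := abs_le.1 him
    exact max_le (max_le (by linarith) (by linarith)) (by linarith)
  have sub4 : ∀ x y : ℝ, 0 < x → 0 < y → b ^ 4 ≤ x ^ 4 + y ^ 4 → b ≤ x + y := by
    intro x y hx hy hxy
    have h1 : b ^ 4 ≤ (x + y) ^ 4 := by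
      refine hxy.trans ?_
      have e : (x + y) ^ 4 = x ^ 4 + y ^ 4 + (4 * x ^ 3 * y + 6 * x ^ 2 * y ^ 2 + 4 * x * y ^ 3) := by
        ring
      rw [e]
      have : 0 ≤ 4 * x ^ 3 * y + 6 * x ^ 2 * y ^ 2 + 4 * x * y ^ 3 := by positivity
      linarith
    exact (pow_le_pow_iff_left₀ hb0.le (by positivity) (by norm_num)).1 h1
  have hd1 := sub4 a v ha0 hv0 hbr
  have hd2 := sub4 a' v ha0' hv0 hbr'
  have e1 : z = (z.re : ℂ) + ((a ^ 4 : ℝ) : ℂ) * Complex.I := by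
    rw [ha4, Complex.re_add_im]
  have e2 : z' = (z'.re : ℂ) + ((a' ^ 4 : ℝ) : ℂ) * Complex.I := by
    rw [ha4', Complex.re_add_im]
  have h1 := vert h hC M z.re a b ha0 hab hb2 (by rw [ha4]; exact hM)
  have h2 := vert h hC M z'.re a' b ha0' hab' hb2 (by rw [ha4']; exact hM')
  have h3 := horiz h M z.re z'.re b hb0 hb2 (by
    refine le_trans ?_ hM
    have h4 : z.im ≤ b ^ 4 := by rw [hb4]; exact (le_max_left _ _).trans (le_max_left _ _)
    gcongr)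
  rw [← e1] at h1
  rw [← e2] at h2
  have h4 : C / b ^ 3 * |z.re - z'.re| ≤ C * v := by
    have h5 : |z.re - z'.re| ≤ b ^ 3 * v := by
      refine hre.trans ?_
      rw [← hv4]
      have h6 : v ^ 3 ≤ b ^ 3 := pow_le_pow_left₀ hv0.le hvb 3
      calc v ^ 4 = v ^ 3 * v := by ring
        _ ≤ b ^ 3 * v := mul_le_mul_of_nonneg_right h6 hv0.le
    calc C / b ^ 3 * |z.re - z'.re| ≤ C / b ^ 3 * (b ^ 3 * v) := by gcongr
      _ = C * v := by field_simp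
  have h5 : Fz d M z - Fz d M z' =
      -(Fz d M ((z.re : ℂ) + ((b ^ 4 : ℝ) : ℂ) * Complex.I) - Fz d M z) +
      (Fz d M ((z.re : ℂ) + ((b ^ 4 : ℝ) : ℂ) * Complex.I) -
        Fz d M ((z'.re : ℂ) + ((b ^ 4 : ℝ) : ℂ) * Complex.I)) +
      (Fz d M ((z'.re : ℂ) + ((b ^ 4 : ℝ) : ℂ) * Complex.I) - Fz d M z') := by
    ring
  rw [h5]
  refine (norm_add₃_le).trans ?_
  rw [norm_neg]
  have h6 : 4 * C * (b - a) ≤ 4 * C * v := by
    apply mul_le_mul_of_nonneg_left (by linarith) (by linarith)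
  have h7 : 4 * C * (b - a') ≤ 4 * C * v := by
    apply mul_le_mul_of_nonneg_left (by linarith) (by linarith)
  linarith

theorem guc' (khb : KhbStmt) (frb : FrbStmt) (ral : RalStmt) (ctz : ANE.CtzStmt) : GucStmt := by
  intro d hd
  obtain ⟨C1, hC1, h1⟩ := bh_bound khb hd
  obtain ⟨C2, hC2, h2⟩ := frb d hd
  obtain ⟨CZ, hCZ, h3⟩ := ctz d
  have hzz : ∀ z : ℂ, zz z.im z.re = z := by
    intro z
    unfold zz
    exact Complex.re_add_im z
  have hg0 : ∀ z : ℂ, g0 d z = G (0 : Site d → ℝ) (zz z.im z.re) (del 0) 0 := by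
    intro z
    rw [hzz]
    rfl
  -- the limit
  have lim : ∀ (z : ℂ) (e : ℝ), 0 < z.im → z.im ≤ 1 / 2 → 0 < e → ∃ M₀ : ℕ, ∀ (M : ℕ) [NeZero M],
      M₀ ≤ M → ‖g0 d z - Fz d M z‖ ≤ e := by
    intro z e hz hz2 he
    obtain ⟨M₀, hM₀⟩ := exists_nat_ge (8 * CZ ^ 2 / (z.im ^ 3 * (8 * e)))
    refine ⟨M₀, ?_⟩
    intro M _ hM
    have h4 : (M₀ : ℝ) ≤ M := by exact_mod_cast hM
    have h5 := Pool.Agent.QDA.H89.ctz_small (d := d) hCZ h3 ral hz (by linarith : 0 < 8 * e)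
      (hM₀.trans h4) (le_refl z.im) hz2
    rw [hg0]
    linarith
  have hD : IsRes (G (0 : Site d → ℝ)) := isRes_G 0
  have hdel : ‖(del (0 : Site d) : L2 d)‖ = 1 := by simp [del]
  have hco : ∀ (f : L2 d), ‖f 0‖ ≤ ‖f‖ := fun f => lp.norm_apply_le_norm (by norm_num) f 0
  have big : ∀ z : ℂ, 0 < z.im → ‖g0 d z‖ ≤ 1 / z.im := by
    intro z hz
    refine (hco _).trans ?_
    have := hD.norm_le' hz.ne' (del (0 : Site d))
    rwa [hdel, mul_one, abs_of_pos hz, ← one_div] at this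
  have bd : ∀ z : ℂ, 0 < z.im → ‖g0 d z‖ ≤ C2 + 1 := by
    intro z hz
    rcases le_or_gt z.im (1 / 2) with h4 | h4
    · obtain ⟨M₀, hM₀⟩ := lim z 1 hz h4 one_pos
      obtain ⟨M₁, hM₁⟩ := exists_nat_ge (C2 / z.im ^ 2)
      haveI : NeZero (max M₀ M₁ + 1) := ⟨by omega⟩
      have h5 := hM₀ (max M₀ M₁ + 1) (by omega)
      have h6 : (C2 / z.im ^ 2) ≤ ((max M₀ M₁ + 1 : ℕ) : ℝ) := by
        refine hM₁.trans ?_
        have : M₁ ≤ max M₀ M₁ + 1 := by omega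
        exact_mod_cast this
      have h7 := (h2 (max M₀ M₁ + 1) z hz (by linarith) h6 0).1 0
      rw [rs_diag ral z hz] at h7
      calc ‖g0 d z‖ = ‖(g0 d z - Fz d (max M₀ M₁ + 1) z) + Fz d (max M₀ M₁ + 1) z‖ := by
            rw [sub_add_cancel]
        _ ≤ ‖g0 d z - Fz d (max M₀ M₁ + 1) z‖ + ‖Fz d (max M₀ M₁ + 1) z‖ := norm_add_le _ _
        _ ≤ C2 + 1 := by linarith
    · refine (big z hz).trans ?_
      have : 1 / z.im ≤ 1 / (1 / 2) := one_div_le_one_div_of_le (by norm_num) h4.le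
      have h5 : (1 : ℝ) / (1 / 2) = 2 := by norm_num
      linarith
  refine ⟨9 * C1 + 4 * (C2 + 1) + 16, by linarith, ?_⟩
  intro z z' hz hz'
  refine ⟨(bd z hz).trans (by linarith), ?_⟩
  rcases (norm_nonneg (z - z')).eq_or_lt with h0 | h0
  · have : z = z' := by
      rw [eq_comm, norm_eq_zero, sub_eq_zero] at h0
      exact h0
    rw [this, sub_self, norm_zero]
    positivity
  have hroot : ∀ x y : ℝ, 0 < y → y ^ 4 ≤ x → y ≤ x ^ (1 / 4 : ℝ) := by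
    intro x y hy hxy
    have h4 : (y ^ 4) ^ (1 / 4 : ℝ) ≤ x ^ (1 / 4 : ℝ) :=
      Real.rpow_le_rpow (by positivity) hxy (by norm_num)
    rw [← Real.rpow_natCast, ← Real.rpow_mul hy.le] at h4
    norm_num at h4
    norm_num
    exact h4
  have hrp : 0 ≤ ‖z - z'‖ ^ (1 / 4 : ℝ) := Real.rpow_nonneg (norm_nonneg _) _
  rcases le_or_gt (1 / 4) ‖z - z'‖ with hfar | hnear
  · -- far
    have h4 : (1 / 2 : ℝ) ≤ ‖z - z'‖ ^ (1 / 4 : ℝ) := by
      apply hroot _ _ (by norm_num)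
      refine le_trans ?_ hfar
      norm_num
    calc ‖g0 d z - g0 d z'‖ ≤ ‖g0 d z‖ + ‖g0 d z'‖ := norm_sub_le _ _
      _ ≤ (C2 + 1) + (C2 + 1) := add_le_add (bd z hz) (bd z' hz')
      _ = 4 * (C2 + 1) * (1 / 2) := by ring
      _ ≤ 4 * (C2 + 1) * ‖z - z'‖ ^ (1 / 4 : ℝ) := by gcongr
      _ ≤ _ := by
        apply mul_le_mul_of_nonneg_right _ hrp
        linarith
  have him : |z.im - z'.im| ≤ ‖z - z'‖ := by
    rw [← Complex.sub_im]
    exact Complex.abs_im_le_norm _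
  have him' := abs_le.1 him
  rcases le_or_gt (1 / 4) (min z.im z'.im) with hhi | hlo
  · -- high
    have h4 : 1 / 4 ≤ z.im := hhi.trans (min_le_left _ _)
    have h5 : 1 / 4 ≤ z'.im := hhi.trans (min_le_right _ _)
    have h6 : g0 d z - g0 d z' = (G (0 : Site d → ℝ) z (del 0) - G (0 : Site d → ℝ) z' (del 0)) 0 :=
      rfl
    have h7 : ‖g0 d z - g0 d z'‖ ≤ ‖z - z'‖ * 16 := by
      rw [h6]
      refine (hco _).trans ?_
      rw [hD.ident_apply hz.ne' hz'.ne', norm_smul]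
      apply mul_le_mul_of_nonneg_left _ (norm_nonneg _)
      have h8 := hD.norm_le' hz.ne' (G (0 : Site d → ℝ) z' (del 0))
      have h9 := hD.norm_le' hz'.ne' (del (0 : Site d))
      rw [hdel, mul_one, abs_of_pos hz'] at h9
      rw [abs_of_pos hz] at h8
      have h10 : z.im⁻¹ ≤ 4 := by
        rw [inv_le_comm₀ hz (by norm_num)]
        linarith
      have h11 : z'.im⁻¹ ≤ 4 := by
        rw [inv_le_comm₀ hz' (by norm_num)]
        linarith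
      calc ‖G (0 : Site d → ℝ) z (G (0 : Site d → ℝ) z' (del 0))‖
          ≤ z.im⁻¹ * ‖G (0 : Site d → ℝ) z' (del 0)‖ := h8
        _ ≤ 4 * 4 := mul_le_mul h10 (h9.trans h11) (norm_nonneg _) (by norm_num)
        _ = 16 := by norm_num
    have h8 : ‖z - z'‖ ≤ ‖z - z'‖ ^ (1 / 4 : ℝ) := by
      apply hroot _ _ h0
      calc ‖z - z'‖ ^ 4 ≤ ‖z - z'‖ ^ 1 :=
            pow_le_pow_of_le_one (norm_nonneg _) (by linarith) (by norm_num)
        _ = ‖z - z'‖ := pow_one _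
    calc ‖g0 d z - g0 d z'‖ ≤ ‖z - z'‖ * 16 := h7
      _ ≤ 16 * ‖z - z'‖ ^ (1 / 4 : ℝ) := by linarith
      _ ≤ _ := by
        apply mul_le_mul_of_nonneg_right _ hrp
        linarith
  · -- low
    have hz2 : z.im ≤ 1 / 2 := by
      rcases min_lt_iff.1 hlo with h4 | h4 <;> linarith
    have hz2' : z'.im ≤ 1 / 2 := by
      rcases min_lt_iff.1 hlo with h4 | h4 <;> linarith
    have h5 : ∀ e : ℝ, 0 < e → ‖g0 d z - g0 d z'‖ ≤ 9 * C1 * ‖z - z'‖ ^ (1 / 4 : ℝ) + e := by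
      intro e he
      obtain ⟨M₀, hM₀⟩ := lim z (e / 2) hz hz2 (by linarith)
      obtain ⟨M₁, hM₁⟩ := lim z' (e / 2) hz' hz2' (by linarith)
      obtain ⟨M₂, hM₂⟩ := exists_nat_ge (C1 / z.im ^ 2)
      obtain ⟨M₃, hM₃⟩ := exists_nat_ge (C1 / z'.im ^ 2)
      obtain ⟨M, hMM⟩ : ∃ M : ℕ, M = M₀ + M₁ + M₂ + M₃ + 1 := ⟨_, rfl⟩
      haveI : NeZero M := ⟨by omega⟩
      have h6 := hM₀ M (by omega)
      have h7 := hM₁ M (by omega)
      have h8 : C1 / z.im ^ 2 ≤ M := by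
        refine hM₂.trans ?_
        have : M₂ ≤ M := by omega
        exact_mod_cast this
      have h9 : C1 / z'.im ^ 2 ≤ M := by
        refine hM₃.trans ?_
        have : M₃ ≤ M := by omega
        exact_mod_cast this
      have h10 := Fz_holder h1 hC1 z z' hz hz' hz2 hz2' h0 (by linarith) M h8 h9
      have h11 : g0 d z - g0 d z' = (g0 d z - Fz d M z) + (Fz d M z - Fz d M z') +
          -(g0 d z' - Fz d M z') := by ring
      rw [h11]
      refine (norm_add₃_le).trans ?_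
      rw [norm_neg]
      linarith
    have h6 : ‖g0 d z - g0 d z'‖ ≤ 9 * C1 * ‖z - z'‖ ^ (1 / 4 : ℝ) := le_of_forall_pos_le_add h5
    refine h6.trans ?_
    apply mul_le_mul_of_nonneg_right _ hrp
    linarith

theorem guc : GucStmt :=
  guc' Pool.Agent.LE.QX.H54.khbT Pool.Agent.LE.QX.H54.frbT Pool.Agent.LE.QD.H93.ralT
    Pool.Agent.ANE.H72.ctz

end Pool.Agent.QDA.H24
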